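import Mathlib
import Pool.Agent.H316R3.Tak.Basic

/-!
# Digit paths for the equation `T x + c x = y`

Solutions of `T x + c x = y` in `[0,1]` are followed along binary digits.  The state is
`(d, a)`, standing for the equation with `c = d` and `y = a / 630`.
-/

set_option autoImplicit false

open Set

namespace Pool.Agent.U273.Takagi

open Pool.Agent.H316R3.Tak

/-- a decomposition of the solution set by the first digit -/
lemma Sol_rec (c y : ℝ) : Sol c y = (fun z => z / 2) '' Sol (c + 1) (2 * y) ∪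
      (fun z => (z + 1) / 2) '' Sol (c - 1) (2 * y - c - 1) := by
  ext x
  constructor
  · intro hx
    rcases le_total x (1 / 2) with h | h
    · exact Or.inl ⟨2 * x, mem_left hx h, by ring⟩
    · exact Or.inr ⟨2 * x - 1, mem_right hx h, by ring⟩
  · rintro (⟨z, hz, rfl⟩ | ⟨z, hz, rfl⟩)
    · exact left_mem hz
    · exact right_mem hz

/-- the solution set of a state `(d, a)` with denominator `q` -/
def S (q : ℤ) (s : ℤ × ℤ) : Set ℝ := Sol (s.1 : ℝ) ((s.2 : ℝ) / (q : ℝ))

/-- applying a word of digits -/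
noncomputable def app : List Bool → ℝ → ℝ
  | [], t => t
  | (false :: w), t => app w t / 2
  | (true :: w), t => (app w t + 1) / 2

/-- the state reached after a word of digits -/
def tr (q : ℤ) : List Bool → ℤ × ℤ → ℤ × ℤ
  | [], s => s
  | (false :: w), s => tr q w (s.1 + 1, 2 * s.2)
  | (true :: w), s => tr q w (s.1 - 1, 2 * s.2 - q * (s.1 + 1))

/-- a state without solutions (sufficient test) -/
def bad (q : ℤ) (s : ℤ × ℤ) : Bool :=
  decide (0 ≤ s.1) && (decide (s.2 < 0) ||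
    decide ((3 * s.1 * 2 ^ s.1.toNat + 2) * q < 3 * s.2 * 2 ^ s.1.toNat))

/-- along the word, the other digit is always impossible -/
def ok (q : ℤ) : List Bool → ℤ × ℤ → Bool
  | [], _ => true
  | (false :: w), s => bad q (s.1 - 1, 2 * s.2 - q * (s.1 + 1)) && ok q w (s.1 + 1, 2 * s.2)
  | (true :: w), s => bad q (s.1 + 1, 2 * s.2) && ok q w (s.1 - 1, 2 * s.2 - q * (s.1 + 1))

lemma S_bad {q : ℤ} (hq : 0 < q) {s : ℤ × ℤ} (h : bad q s = true) : S q s = ∅ := by
  obtain ⟨d, a⟩ := s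
  have hq' : (0 : ℝ) < (q : ℝ) := by exact_mod_cast hq
  simp only [bad, Bool.and_eq_true, Bool.or_eq_true, decide_eq_true_eq] at h
  obtain ⟨hd, h⟩ := h
  obtain ⟨k, rfl⟩ := Int.eq_ofNat_of_zero_le hd
  have hk : ((k : ℤ) : ℝ) = (k : ℝ) := by push_cast; rfl
  rw [Set.eq_empty_iff_forall_notMem]
  rintro x ⟨⟨h0, h1⟩, h2⟩
  simp only at h2
  rw [hk] at h2
  rcases h with h | h
  · have h3 := T_nonneg x
    have h4 : 0 ≤ (k : ℝ) * x := mul_nonneg (Nat.cast_nonneg k) h0
    have h5 : (a : ℝ) / q < 0 := div_neg_of_neg_of_pos (by exact_mod_cast h) hq'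
    linarith
  · have h3 := T_bound k x h0 h1
    rw [h2] at h3
    have hk2 : (0 : ℝ) < 2 ^ k := by positivity
    have h4 : ((3 * (k : ℝ) * 2 ^ k + 2) * q : ℝ) < 3 * a * 2 ^ k := by
      have := h
      simp only [Int.toNat_natCast] at this
      exact_mod_cast this
    have h5 : (a : ℝ) / q * q = a := div_mul_cancel₀ _ hq'.ne'
    have h6 : (a : ℝ) ≤ ((k : ℝ) + 2 / 3 / 2 ^ k) * q := by
      calc (a : ℝ) = (a : ℝ) / q * q := h5.symm
        _ ≤ _ := mul_le_mul_of_nonneg_right h3 hq'.le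
    have h7 : 3 * (a : ℝ) * 2 ^ k ≤ 3 * (((k : ℝ) + 2 / 3 / 2 ^ k) * q) * 2 ^ k :=
      mul_le_mul_of_nonneg_right (by linarith) hk2.le
    have h8 : 3 * (((k : ℝ) + 2 / 3 / 2 ^ k) * q) * 2 ^ k = (3 * (k : ℝ) * 2 ^ k + 2) * q := by
      field_simp
    linarith

lemma S_rec {q : ℤ} (hq : 0 < q) (s : ℤ × ℤ) :
    S q s = (fun z => z / 2) '' S q (s.1 + 1, 2 * s.2) ∪
      (fun z => (z + 1) / 2) '' S q (s.1 - 1, 2 * s.2 - q * (s.1 + 1)) := by
  have hq' : (q : ℝ) ≠ 0 := by exact_mod_cast hq.ne'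
  unfold S
  rw [Sol_rec]
  have e1 : (2 * ((s.2 : ℝ) / q)) = ((2 * s.2 : ℤ) : ℝ) / q := by push_cast; ring
  have e2 : (2 * ((s.2 : ℝ) / q) - s.1 - 1) = ((2 * s.2 - q * (s.1 + 1) : ℤ) : ℝ) / q := by
    push_cast; field_simp; ring
  rw [e2, e1]
  push_cast
  rfl

lemma app_mem {q : ℤ} (hq : 0 < q) (w : List Bool) : ∀ {s : ℤ × ℤ} {t : ℝ},
    t ∈ S q (tr q w s) → app w t ∈ S q s := by
  induction w with
  | nil => intro s t h; exact h
  | cons b w ih =>
    intro s t h
    rw [S_rec hq]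
    cases b with
    | false => exact Or.inl ⟨_, ih h, rfl⟩
    | true => exact Or.inr ⟨_, ih h, rfl⟩

lemma S_sub {q : ℤ} (hq : 0 < q) (w : List Bool) : ∀ {s : ℤ × ℤ}, ok q w s = true →
    S q s ⊆ app w '' S q (tr q w s) := by
  induction w with
  | nil => intro s _ x hx; exact ⟨x, hx, rfl⟩
  | cons b w ih =>
    intro s h x hx
    rw [S_rec hq] at hx
    cases b with
    | false =>
      simp only [ok, Bool.and_eq_true] at h
      rw [S_bad hq h.1, image_empty, union_empty] at hx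
      obtain ⟨z, hz, rfl⟩ := hx
      obtain ⟨t, ht, rfl⟩ := ih h.2 hz
      exact ⟨t, ht, rfl⟩
    | true =>
      simp only [ok, Bool.and_eq_true] at h
      rw [S_bad hq h.1, image_empty, empty_union] at hx
      obtain ⟨z, hz, rfl⟩ := hx
      obtain ⟨t, ht, rfl⟩ := ih h.2 hz
      exact ⟨t, ht, rfl⟩

lemma countable_of_ok {q : ℤ} (hq : 0 < q) (w : List Bool) {s : ℤ × ℤ} (h : ok q w s = true)
    (hc : (S q (tr q w s)).Countable) : (S q s).Countable :=
  (hc.image _).mono (S_sub hq w h)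

/-- passing through `d = 0` -/
lemma countable_zero {q : ℤ} (hq : 0 < q) {a : ℤ} (hc : (S q (1, 2 * a)).Countable) :
    (S q (0, a)).Countable := by
  have hq' : (q : ℝ) ≠ 0 := by exact_mod_cast hq.ne'
  rw [S_rec hq]
  refine (Set.Countable.image (by simpa using hc) _).union (Set.Countable.image ?_ _)
  refine (hc.image (fun x => 1 - x)).mono ?_
  rintro x ⟨⟨h0, h1⟩, h2⟩
  refine ⟨1 - x, ⟨⟨by linarith, by linarith⟩, ?_⟩, by ring⟩
  rw [T_symm]
  simp only at h2 ⊢
  push_cast at h2 ⊢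
  have h3 : (2 * (a : ℝ) - q * 1) / q = 2 * a / q - 1 := by field_simp
  rw [h3] at h2
  linarith

lemma app_lip (w : List Bool) : ∀ x y : ℝ, |app w x - app w y| = |x - y| / 2 ^ w.length := by
  induction w with
  | nil => intro x y; simp [app]
  | cons b w ih =>
    intro x y
    have h : ∀ u v : ℝ, |u / 2 - v / 2| = |u - v| / 2 := by
      intro u v; rw [← sub_div, abs_div, abs_two]
    cases b with
    | false =>
      simp only [app, List.length_cons]
      rw [h, ih, pow_succ]; ring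
    | true =>
      simp only [app, List.length_cons]
      rw [h, add_sub_add_right_eq_sub, ih, pow_succ]; ring

lemma app_injective (w : List Bool) : Function.Injective (app w) := by
  intro x y h
  have := app_lip w x y
  rw [h, sub_self, abs_zero] at this
  have h2 : |x - y| = 0 := by
    have hp : (0 : ℝ) < 2 ^ w.length := by positivity
    have h3 : |x - y| / 2 ^ w.length = 0 := this.symm
    rwa [div_eq_zero_iff, or_iff_left hp.ne'] at h3
  exact sub_eq_zero.1 (abs_eq_zero.1 h2)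

/-- a set covered by a countable set and its own image under a contraction is countable -/
lemma countable_of_selfcover {A C : Set ℝ} {f : ℝ → ℝ} (hA : A ⊆ Icc 0 1)
    (hf : ∀ x y, |f x - f y| ≤ |x - y| / 2) (hC : C.Countable) (h : A ⊆ C ∪ f '' A) :
    A.Countable := by
  -- the points with backward orbits of every length
  have hB : ∀ n : ℕ, ∀ x ∈ f^[n] '' A, ∀ y ∈ f^[n] '' A, |x - y| ≤ (1 / 2 : ℝ) ^ n := by
    intro n
    induction n with
    | zero =>
      rintro x ⟨a, ha, rfl⟩ y ⟨b, hb, rfl⟩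
      have h1 := hA ha
      have h2 := hA hb
      simp only [Function.iterate_zero, id_eq, pow_zero]
      rw [abs_le]; constructor <;> linarith [h1.1, h1.2, h2.1, h2.2]
    | succ n ih =>
      rintro x ⟨a, ha, rfl⟩ y ⟨b, hb, rfl⟩
      rw [Function.iterate_succ', Function.comp, Function.comp]
      have := ih _ ⟨a, ha, rfl⟩ _ ⟨b, hb, rfl⟩
      have h3 := hf (f^[n] a) (f^[n] b)
      rw [pow_succ]
      linarith
  have hcov : ∀ n : ℕ, A ⊆ (⋃ m : ℕ, f^[m] '' C) ∪ f^[n] '' A := by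
    intro n
    induction n with
    | zero => intro x hx; exact Or.inr ⟨x, hx, rfl⟩
    | succ n ih =>
      intro x hx
      rcases ih hx with h1 | ⟨a, ha, rfl⟩
      · exact Or.inl h1
      · rcases h ha with h2 | ⟨b, hb, rfl⟩
        · exact Or.inl (mem_iUnion.2 ⟨n, ⟨a, h2, rfl⟩⟩)
        · exact Or.inr ⟨b, hb, by rw [Function.iterate_succ]; rfl⟩
  have hsub : A ⊆ (⋃ m : ℕ, f^[m] '' C) ∪ {x | ∀ n : ℕ, x ∈ f^[n] '' A} := by
    intro x hx
    by_cases hx2 : x ∈ ⋃ m : ℕ, f^[m] '' C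
    · exact Or.inl hx2
    · exact Or.inr fun n => (hcov n hx).resolve_left hx2
  refine Set.Countable.mono hsub (Set.Countable.union (Set.countable_iUnion fun m => hC.image _) ?_)
  refine Set.Subsingleton.countable ?_
  intro x hx y hy
  have h1 : ∀ n : ℕ, |x - y| ≤ (1 / 2 : ℝ) ^ n := fun n => hB n x (hx n) y (hy n)
  have h2 : |x - y| ≤ 0 := by
    have := tendsto_pow_atTop_nhds_zero_of_lt_one (r := (1 / 2 : ℝ)) (by norm_num) (by norm_num)
    exact ge_of_tendsto' this h1
  exact sub_eq_zero.1 (abs_nonpos_iff.1 h2)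

lemma S_Icc (q : ℤ) (s : ℤ × ℤ) : S q s ⊆ Icc 0 1 := fun _ hx => hx.1

lemma app_lip' {w : List Bool} (hw : w ≠ []) (x y : ℝ) : |app w x - app w y| ≤ |x - y| / 2 := by
  rw [app_lip]
  apply div_le_div_of_nonneg_left (abs_nonneg _) (by norm_num)
  have : 1 ≤ w.length := List.length_pos_iff.2 hw
  calc (2 : ℝ) = 2 ^ 1 := by norm_num
    _ ≤ 2 ^ w.length := pow_le_pow_right₀ (by norm_num) this

end Pool.Agent.U273.Takagi
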